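import Mathlib

namespace Pool.Agent.Results.MP_d1ccd0_al.Infinite

variable {s : ℕ}

/-- atoms of a submonoid of the free abelian monoid `ℕ ^ s` -/
def Atom (H : AddSubmonoid (Fin s → ℕ)) (u : Fin s → ℕ) : Prop :=
  u ∈ H ∧ u ≠ 0 ∧ ∀ b ∈ H, ∀ c ∈ H, u = b + c → b = 0 ∨ c = 0

/-- factorizations of `a` -/
def Z (H : AddSubmonoid (Fin s → ℕ)) (a : Fin s → ℕ) : Set (Multiset (Fin s → ℕ)) :=
  {z | (∀ u ∈ z, Atom H u) ∧ z.sum = a}

/-- distance of two factorizations -/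
def dist (z z' : Multiset (Fin s → ℕ)) : ℕ := max (z - z ∩ z').card (z' - z ∩ z').card

/-- a monotone `N`-chain of factorizations of `a` from `z` to `z'` -/
def MonChain (H : AddSubmonoid (Fin s → ℕ)) (a : Fin s → ℕ) (N : ℕ∞)
    (z z' : Multiset (Fin s → ℕ)) : Prop :=
  ∃ (r : ℕ) (f : ℕ → Multiset (Fin s → ℕ)), f 0 = z ∧ f r = z' ∧ (∀ i ≤ r, f i ∈ Z H a) ∧
    (∀ i < r, (dist (f i) (f (i + 1)) : ℕ∞) ≤ N) ∧
    ((∀ i < r, (f i).card ≤ (f (i + 1)).card) ∨ ∀ i < r, (f (i + 1)).card ≤ (f i).card)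

noncomputable def cEq (H : AddSubmonoid (Fin s → ℕ)) (a : Fin s → ℕ) : ℕ∞ :=
  sInf {N | ∀ z ∈ Z H a, ∀ z' ∈ Z H a, z.card = z'.card → MonChain H a N z z'}

/-- set of lengths -/
def L (H : AddSubmonoid (Fin s → ℕ)) (a : Fin s → ℕ) : Set ℕ := Multiset.card '' Z H a

noncomputable def cAdj (H : AddSubmonoid (Fin s → ℕ)) (a : Fin s → ℕ) : ℕ∞ :=
  ⨆ (k ∈ L H a) (l ∈ L H a) (_ : k < l) (_ : ∀ m ∈ L H a, ¬ (k < m ∧ m < l)),
    ⨅ (z ∈ Z H a) (z' ∈ Z H a) (_ : z.card = k) (_ : z'.card = l), (dist z z' : ℕ∞)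

noncomputable def cMon (H : AddSubmonoid (Fin s → ℕ)) : ℕ∞ :=
  max (⨆ a ∈ H, cEq H a) (⨆ a ∈ H, cAdj H a)

def J (x y r : ℕ) : Prop := (1 ≤ x ∧ 1 ≤ y) ∨ 2 ≤ r ∨ (1 ≤ r ∧ 2 ≤ x) ∨ (1 ≤ r ∧ 2 ≤ y)

lemma eq4 {a b : Fin 4 → ℕ} : a = b ↔ a 0 = b 0 ∧ a 1 = b 1 ∧ a 2 = b 2 ∧ a 3 = b 3 := by
  constructor
  · rintro rfl; simp
  · rintro ⟨h0, h1, h2, h3⟩
    funext i; fin_cases i <;> assumption

def H₀ : AddSubmonoid (Fin 4 → ℕ) where
  carrier := {a | a = 0 ∨ 1 ≤ a 0 ∨ J (a 1) (a 2) (a 3)}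
  zero_mem' := Or.inl rfl
  add_mem' := by
    intro a b ha hb
    simp only [Set.mem_ofPred_eq, eq4, J, Pi.add_apply, Pi.zero_apply] at *
    omega

lemma mem {a : Fin 4 → ℕ} : a ∈ H₀ ↔ (a 0 = 0 ∧ a 1 = 0 ∧ a 2 = 0 ∧ a 3 = 0) ∨ 1 ≤ a 0 ∨
    J (a 1) (a 2) (a 3) := by
  show (a = 0 ∨ _) ↔ _
  rw [eq4]; rfl

lemma atom_le {u : Fin 4 → ℕ} (h : Atom H₀ u) : u 0 ≤ 1 ∧ (u 0 = 1 → ¬ J (u 1) (u 2) (u 3)) := by
  have key : 1 ≤ u 0 → ![u 0 - 1, u 1, u 2, u 3] ∈ H₀ → ![u 0 - 1, u 1, u 2, u 3] = 0 := by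
    intro h1 h2
    refine (h.2.2 ![1, 0, 0, 0] (mem.2 (by simp)) _ h2 (eq4.2 (by simp; omega))).resolve_left ?_
    simp
  refine ⟨?_, fun h1 h2 => ?_⟩
  · by_contra hh
    have := key (by omega) (mem.2 (Or.inr (Or.inl (by simp; omega))))
    rw [eq4] at this
    simp at this
    omega
  · have := key (by omega) (mem.2 (Or.inr (Or.inr (by simpa using h2))))
    rw [eq4] at this
    simp [J] at this h2
    omega

lemma atom_of {x y r : ℕ} (h : ¬ J x y r) : Atom H₀ ![1, x, y, r] := by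
  refine ⟨mem.2 (by simp), by simp, fun b hb c hc e => ?_⟩
  rw [mem] at hb hc
  simp only [eq4, J] at *
  simp at e ⊢
  omega

lemma all_eq {α : Type} (z : Multiset α) (f : α → ℕ) (h : ∀ u ∈ z, f u ≤ 1)
    (e : z.card ≤ (z.map f).sum) : ∀ u ∈ z, f u = 1 := by
  intro u hu
  obtain ⟨t, rfl⟩ := Multiset.exists_cons_of_mem hu
  have := Multiset.sum_le_card_nsmul (t.map f) 1 (by
    intro x hx
    obtain ⟨v, hv, rfl⟩ := Multiset.mem_map.1 hx
    exact h v (Multiset.mem_cons_of_mem hv))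
  have := h u hu
  simp at *
  omega

lemma sum_ap (z : Multiset (Fin 4 → ℕ)) (i : Fin 4) : z.sum i = (z.map fun u => u i).sum := by
  induction z using Multiset.induction_on with
  | empty => simp
  | cons a z ih => simp [ih]

def z₁ (k : ℕ) : Multiset (Fin 4 → ℕ) := ![1, k, 0, 0] ::ₘ Multiset.replicate k ![1, 0, 1, 1]
def z₂ (k : ℕ) : Multiset (Fin 4 → ℕ) := ![1, 0, k, 0] ::ₘ Multiset.replicate k ![1, 1, 0, 1]

lemma cls {k : ℕ} {z : Multiset (Fin 4 → ℕ)} (hz : z ∈ Z H₀ ![k + 1, k, k, k])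
    (hc : z.card = k + 1) : z = z₁ k ∨ z = z₂ k := by
  have h0 := all_eq z (fun u => u 0) (fun u hu => (atom_le (hz.1 u hu)).1)
    (by rw [← sum_ap, hz.2, hc]; simp)
  have hJ := fun u hu => (atom_le (hz.1 u hu)).2 (h0 u hu)
  obtain ⟨u, hu, hu3⟩ : ∃ u ∈ z, u 3 = 0 := by
    by_contra hh
    push Not at hh
    have := Multiset.card_nsmul_le_sum (s := z.map fun u => u 3) (a := 1) (by
      intro x hx
      obtain ⟨v, hv, rfl⟩ := Multiset.mem_map.1 hx
      exact Nat.pos_of_ne_zero (hh v hv))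
    rw [← sum_ap, hz.2] at this
    simp [hc] at this
  obtain ⟨t, rfl⟩ := Multiset.exists_cons_of_mem hu
  have ht : t.card = k := by simpa using hc
  have hs := hz.2
  rw [Multiset.sum_cons, eq4] at hs
  simp only [Pi.add_apply, sum_ap] at hs
  simp at hs
  obtain ⟨-, s1, s2, s3⟩ := hs
  have hm := fun v (hv : v ∈ t) => Multiset.mem_cons_of_mem (b := u) hv
  have h3 := all_eq t (fun v => v 3) (fun v hv => by have := hJ v (hm v hv); unfold J at this; omega)
    (by omega)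
  have h12 : ∀ v ∈ t, v 1 + v 2 ≤ 1 := fun v hv => by
    have := hJ v (hm v hv)
    have := h3 v hv
    unfold J at *; omega
  have hb := Multiset.sum_le_card_nsmul (t.map fun v => v 1 + v 2) 1 (by
    intro x hx
    obtain ⟨v, hv, rfl⟩ := Multiset.mem_map.1 hx
    exact h12 v hv)
  rw [Multiset.sum_map_add] at hb
  simp [ht] at hb
  have hu0 := h0 u hu
  have huJ := hJ u hu
  unfold J at huJ
  by_cases h : u 2 = 0
  · left
    have h2 := all_eq t (fun v => v 2) (fun v hv => by have := h12 v hv; omega) (by omega)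
    rw [z₁, show u = ![1, k, 0, 0] from eq4.2 (by simp; omega)]
    congr 1
    refine Multiset.eq_replicate.2 ⟨ht, fun v hv => eq4.2 ?_⟩
    have := h12 v hv
    have := h2 v hv
    have := h3 v hv
    have := h0 v (hm v hv)
    simp; omega
  · right
    have h2 := all_eq t (fun v => v 1) (fun v hv => by have := h12 v hv; omega) (by omega)
    rw [z₂, show u = ![1, 0, k, 0] from eq4.2 (by simp; omega)]
    congr 1
    refine Multiset.eq_replicate.2 ⟨ht, fun v hv => eq4.2 ?_⟩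
    have := h12 v hv
    have := h2 v hv
    have := h3 v hv
    have := h0 v (hm v hv)
    simp; omega

lemma z₁_mem (k : ℕ) : z₁ k ∈ Z H₀ ![k + 1, k, k, k] := by
  refine ⟨fun u hu => ?_, ?_⟩
  · rcases Multiset.mem_cons.1 hu with rfl | h
    · exact atom_of (by simp [J])
    · rw [Multiset.eq_of_mem_replicate h]; exact atom_of (by simp [J])
  · simp [z₁, add_comm]

lemma z₂_mem (k : ℕ) : z₂ k ∈ Z H₀ ![k + 1, k, k, k] := by
  refine ⟨fun u hu => ?_, ?_⟩
  · rcases Multiset.mem_cons.1 hu with rfl | h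
    · exact atom_of (by simp [J])
    · rw [Multiset.eq_of_mem_replicate h]; exact atom_of (by simp [J])
  · simp [z₂, add_comm]

lemma far {k : ℕ} (hk : k ≠ 0) : k + 1 ≤ dist (z₁ k) (z₂ k) := by
  have : z₁ k ∩ z₂ k = 0 := by
    refine Multiset.eq_zero_of_forall_notMem fun u hu => ?_
    rw [Multiset.mem_inter] at hu
    obtain ⟨h1, h2⟩ := hu
    simp only [z₁, z₂, Multiset.mem_cons, Multiset.mem_replicate, eq4] at h1 h2
    simp at h1 h2
    omega
  rw [dist, this]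
  simp [z₁]

lemma big {k : ℕ} (hk : k ≠ 0) : ((k + 1 : ℕ) : ℕ∞) ≤ cEq H₀ ![k + 1, k, k, k] := by
  refine le_sInf fun N hN => ?_
  obtain ⟨r, f, h0, hr, hZ, hd, hm⟩ := hN _ (z₁_mem k) _ (z₂_mem k) (by simp [z₁, z₂])
  have c0 : (f 0).card = k + 1 := by simp [h0, z₁]
  have cr : (f r).card = k + 1 := by simp [hr, z₂]
  have hc : ∀ i ≤ r, (f i).card = k + 1 := by
    intro i hi
    rcases hm with hm | hm
    · have : ∀ j i, i ≤ j → j ≤ r → (f i).card ≤ (f j).card := by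
        intro j i hij
        induction hij with
        | refl => simp
        | step _ ih => exact fun h => (ih (by omega)).trans (hm _ (by omega))
      have h1 := this i 0 (by omega) hi
      have h2 := this r i hi le_rfl
      omega
    · have : ∀ j i, i ≤ j → j ≤ r → (f j).card ≤ (f i).card := by
        intro j i hij
        induction hij with
        | refl => simp
        | step _ ih => exact fun h => (hm _ (by omega)).trans (ih (by omega))
      have h1 := this i 0 (by omega) hi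
      have h2 := this r i hi le_rfl
      omega
  by_contra hh
  have : ∀ i ≤ r, f i = z₁ k := by
    intro i
    induction i with
    | zero => exact fun _ => h0
    | succ i ih =>
      intro hi
      refine (cls (hZ _ hi) (hc _ hi)).resolve_right fun e => hh ?_
      have := hd i (by omega)
      rw [ih (by omega), e] at this
      exact le_trans (by exact_mod_cast far hk) this
  have e := far hk
  rw [← this r le_rfl, hr] at e
  rw [dist, show z₂ k ∩ z₂ k = z₂ k from inf_idem (z₂ k)] at e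
  simp at e

theorem result : ∃ (s : ℕ) (H : AddSubmonoid (Fin s → ℕ)),
    (∀ a ∈ H, a ≠ 0 → ∀ f : Fin s → ℕ, a + f ∈ H) ∧ (⨆ a ∈ H, cEq H a) = ⊤ ∧ cMon H = ⊤ := by
  have h : (⨆ a ∈ H₀, cEq H₀ a) = ⊤ := by
    refine ENat.eq_top_iff_forall_ge.2 fun k => ?_
    refine le_trans ?_ (le_iSup₂_of_le (f := fun a (_ : a ∈ H₀) => cEq H₀ a)
      ![k + 1 + 1, k + 1, k + 1, k + 1] (mem.2 (by simp)) (big (Nat.succ_ne_zero k)))
    exact_mod_cast (by omega)
  refine ⟨4, H₀, fun a ha h0 f => ?_, h, by rw [cMon, h]; simp⟩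
  rw [mem] at *
  simp only [ne_eq, eq4, J, Pi.add_apply, Pi.zero_apply] at *
  omega

end Pool.Agent.Results.MP_d1ccd0_al.Infinite
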